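import Pool.Agent.H61.HB.Stmts4

/-!
Project HB, row GLD: the global solution from `p + n³ W`.
-/

set_option autoImplicit false

namespace HB

theorem gld_nsq_le (hMMB : MMBStmt) (hGRF : GRFStmt) (φ : V) (hφ : Mem 2 φ) :
    nsq (-1) φ ≤ hm φ + mu φ := by
  have hsq : ∀ k : Z2, 0 ≤ sq k := by
    intro k
    unfold sq
    positivity
  have key : ∀ f : Z2 → ℂ, MemS 2 f → nqS (-1) f ≤ hmS f + ‖f 0‖ ^ 2 := by
    intro f hf
    have h1 : MemS (-1) f := (hMMB.2.1 (-1) 2 f (by norm_num) hf).1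
    have h2 : Summable (fun k => ‖off f k‖ ^ 2 / sq k) := (hGRF.1 f hf).2.2.2.1
    have h3 : HasSum (fun k : Z2 => if k = 0 then ‖f 0‖ ^ 2 else 0) (‖f 0‖ ^ 2) :=
      hasSum_ite_eq 0 (‖f 0‖ ^ 2)
    have h4 : ∀ k : Z2, (1 + sq k) ^ (-1 : ℝ) * ‖f k‖ ^ 2 ≤
        ‖off f k‖ ^ 2 / sq k + (if k = 0 then ‖f 0‖ ^ 2 else 0) := by
      intro k
      by_cases hk : k = 0
      · subst hk
        have h0 : sq (0 : Z2) = 0 := by simp [sq]
        simp [off, h0]
      · have h5 : 0 < sq k := by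
          rcases (hsq k).lt_or_eq with h | h
          · exact h
          · exfalso
            apply hk
            have ha : (k.1 : ℝ) ^ 2 + (k.2 : ℝ) ^ 2 = 0 := h.symm
            have hb : (k.1 : ℝ) = 0 := by nlinarith [sq_nonneg (k.1 : ℝ), sq_nonneg (k.2 : ℝ)]
            have hc : (k.2 : ℝ) = 0 := by nlinarith [sq_nonneg (k.1 : ℝ), sq_nonneg (k.2 : ℝ)]
            exact Prod.ext (by exact_mod_cast hb) (by exact_mod_cast hc)
        rw [if_neg hk, add_zero]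
        have h6 : off f k = f k := by simp [off, hk]
        rw [h6, Real.rpow_neg_one, div_eq_inv_mul]
        refine mul_le_mul_of_nonneg_right ?_ (by positivity)
        exact inv_anti₀ h5 (by linarith)
    have h5 : nqS (-1) f ≤ ∑' k : Z2, (‖off f k‖ ^ 2 / sq k + (if k = 0 then ‖f 0‖ ^ 2 else 0)) :=
      Summable.tsum_le_tsum h4 h1 (h2.add h3.summable)
    rw [h2.tsum_add h3.summable, h3.tsum_eq] at h5
    exact h5
  unfold nsq hm mu
  rw [← Finset.sum_add_distrib]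
  exact Finset.sum_le_sum fun j _ => key (φ j) (hφ j)

theorem gld_thm (hCRD : CRDStmt) (hIGA : IGAStmt) (hGLB : GLBStmt) (hLGR : LGRStmt)
    (hGRF : GRFStmt) (hCTA : CTAStmt) (hFSA : FSAStmt) (hFSB : FSBStmt) (hMMB : MMBStmt) :
    GLDStmt := by
  intro ν M p hν hM hp hpR
  obtain ⟨K, n₀, hK, hC⟩ := hCRD ν M p hν hM hp hpR
  obtain ⟨C₂, hC₂, hG⟩ := hLGR
  refine ⟨K, n₀, hK, ?_⟩
  intro n hn hn1 s hs
  obtain ⟨K', hK', hI⟩ := hIGA ν M p n hν hM hp hn1
  have hflu : ∀ w : V, 0 ≤ flu w := by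
    intro w
    unfold flu flS
    exact Finset.sum_nonneg fun j _ => tsum_nonneg fun k => by positivity
  have hfs : ∀ θ : ℝ, Fs ((n : ℝ) ^ 2 + M) (apx ν p n θ) := fun θ => (hFSA ν M p n θ hM hp).1
  have hAm : ∀ (σ θ : ℝ), Mem σ (apx ν p n θ) := fun σ θ => hFSB.2.1 _ σ _ (hfs θ)
  have hAR : Rl (apx ν p n 1) := (hFSA ν M p n 1 hM hp).2.2.2 hpR
  obtain ⟨A₀, hA₀⟩ : ∃ A₀ : V, A₀ = apx ν p n 1 := ⟨_, rfl⟩
  have hKn : 0 ≤ K / n := by positivity
  obtain ⟨M₂, hM₂⟩ : ∃ M₂ : ℝ, M₂ = 2 * (K / n) + 2 * K' := ⟨_, rfl⟩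
  have hM₂0 : 0 ≤ M₂ := by
    rw [hM₂]
    positivity
  -- the bound for the gradient
  have key : ∀ (T : ℝ) (v : ℝ → V), 0 ≤ T → Sol ν s T v → v 0 = A₀ →
      (∀ t ∈ Set.Icc 0 T, Rl (v t)) → ∫ r in (0 : ℝ)..T, grd (v r) ≤ M₂ := by
    intro T v hT hv hv0 hr
    have h1 := (hC n hn hn1 s T v hs hT hv hr (by rw [hv0, hA₀])).2
    have h2 := hI T hT
    obtain ⟨c1, c2, -, c4⟩ := hCTA.2 ν s T M p n v hs hM hp hv
    have g1 := (hCTA.1 T _ c1).2.2
    have g2 := (hCTA.1 T _ c2).2.2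
    have g3 := (hCTA.1 T _ c4).2.2
    have i1 : IntervalIntegrable (fun r => grd (v r - apx ν p n (tht ν n r)))
        MeasureTheory.volume 0 T :=
      ContinuousOn.intervalIntegrable (by rw [Set.uIcc_of_le hT]; exact g1)
    have i2 : IntervalIntegrable (fun r => grd (apx ν p n (tht ν n r)))
        MeasureTheory.volume 0 T :=
      ContinuousOn.intervalIntegrable (by rw [Set.uIcc_of_le hT]; exact g2)
    have i3 : IntervalIntegrable (fun r => grd (v r)) MeasureTheory.volume 0 T :=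
      ContinuousOn.intervalIntegrable (by rw [Set.uIcc_of_le hT]; exact g3)
    have h3 : ∫ r in (0 : ℝ)..T, grd (v r) ≤
        ∫ r in (0 : ℝ)..T, (2 * grd (v r - apx ν p n (tht ν n r)) +
          2 * grd (apx ν p n (tht ν n r))) := by
      refine intervalIntegral.integral_mono_on hT i3 ((i1.const_mul 2).add (i2.const_mul 2))
        fun r hr' => ?_
      exact hGRF.2.2 (apx ν p n (tht ν n r)) (v r) (hAm 2 _) (c4.1 r hr')
    rw [intervalIntegral.integral_add (i1.const_mul 2) (i2.const_mul 2),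
      intervalIntegral.integral_const_mul, intervalIntegral.integral_const_mul] at h3
    rw [hM₂]
    linarith
  have hCν : 0 ≤ C₂ / ν := div_nonneg hC₂.le hν.le
  obtain ⟨v, hv0, hv⟩ := hGLB ν s (flu A₀ / ν * Real.exp (2 * (C₂ / ν * M₂))) A₀ hν hs
    (mul_nonneg (div_nonneg (hflu A₀) hν.le) (Real.exp_pos _).le) (by rw [hA₀]; exact hAm s 1)
    (by rw [hA₀]; exact hAR) (by
    intro T w hT hw hw0 hr _
    have h1 := (hG ν s T w hν hs hT hw hr T ⟨hT, le_refl T⟩).2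
    rw [hw0] at h1
    refine h1.trans (mul_le_mul_of_nonneg_left ?_ (div_nonneg (hflu A₀) hν.le))
    refine Real.exp_le_exp.2 ?_
    have h2 := mul_le_mul_of_nonneg_left (key T w hT hw hw0 hr) hCν
    linarith)
  refine ⟨v, by rw [hv0, hA₀], fun T hT => ⟨(hv T hT).1, ?_⟩, ?_, ?_⟩
  · rw [← hA₀]
    exact (hv T hT).2.2
  · have hb : ∀ t : ℝ, 0 ≤ t → flu (v t) ≤ flu A₀ * Real.exp (-ν * t + C₂ / ν * M₂) := by
      intro t ht
      have h1 := (hG ν s t v hν hs ht (hv t ht).1.sol (hv t ht).1.real t ⟨ht, le_refl t⟩).1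
      rw [hv0] at h1
      refine h1.trans (mul_le_mul_of_nonneg_left ?_ (hflu A₀))
      refine Real.exp_le_exp.2 ?_
      have h2 := mul_le_mul_of_nonneg_left (key t v ht (hv t ht).1.sol hv0 (hv t ht).1.real) hCν
      linarith
    have hlim : Filter.Tendsto (fun t : ℝ => flu A₀ * Real.exp (-ν * t + C₂ / ν * M₂))
        Filter.atTop (nhds 0) := by
      have h1 : Filter.Tendsto (fun t : ℝ => -ν * t) Filter.atTop Filter.atBot :=
        Filter.tendsto_id.const_mul_atTop_of_neg (by linarith)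
      have h2 : Filter.Tendsto (fun t : ℝ => -ν * t + C₂ / ν * M₂) Filter.atTop Filter.atBot :=
        Filter.tendsto_atBot_add_const_right _ _ h1
      have h3 := Real.tendsto_exp_atBot.comp h2
      simpa using h3.const_mul (flu A₀)
    refine squeeze_zero' (Filter.Eventually.of_forall fun t => hflu (v t)) ?_ hlim
    filter_upwards [Filter.eventually_ge_atTop (0 : ℝ)] with t ht
    exact hb t ht
  · intro t ht
    have hv1 := (hv t ht).1
    have h1 := (hC n hn hn1 s t v hs ht hv1.sol hv1.real (by rw [hv0, hA₀])).1 t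
      ⟨ht, le_refl t⟩
    have h2 : Mem 2 (v t - apx ν p n (tht ν n t)) :=
      (hCTA.2 ν s t M p n v hs hM hp hv1.sol).1.1 t ⟨ht, le_refl t⟩
    exact (gld_nsq_le hMMB hGRF _ h2).trans h1

end HB
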